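import Mathlib

open Finset
open scoped NNReal

namespace Pool.Agent.H828_Old.TwoSpins

/-- Total variation distance `max_A |μ(A) - ν(A)|`, over all subsets `A` of `Ω`. -/
noncomputable def tv {Ω : Type*} [Fintype Ω] (μ ν : Ω → ℝ) : ℝ :=
  (univ : Finset (Finset Ω)).sup' ⟨∅, mem_univ _⟩
    fun A => |∑ z ∈ A, μ z - ∑ z ∈ A, ν z|

/-- `P` is a monotone reversible Markov chain on the finite poset `Ω`, in discrete time
(`T = ℕ`) or in continuous time (`T = ℝ≥0`, where continuity is asked for separately):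
stochastic kernels with `P 0 = I` and the semigroup property, `P t x A ≤ P t y A` for `x ≤ y`
and every up-set `A`, and detailed balance with a positive probability `π`. -/
structure IsMonotoneReversibleChain {T Ω : Type*} [AddMonoid T] [Fintype Ω] [DecidableEq Ω]
    [PartialOrder Ω] (P : T → Ω → Ω → ℝ) : Prop where
  nonneg : ∀ t x y, 0 ≤ P t x y
  sum_eq_one : ∀ t x, ∑ y, P t x y = 1
  zero : ∀ x y, P 0 x y = if x = y then 1 else 0
  add : ∀ s t x z, P (s + t) x z = ∑ y, P s x y * P t y z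
  monotone : ∀ t x y, x ≤ y → ∀ A : Finset Ω, IsUpperSet (A : Set Ω) →
    ∑ z ∈ A, P t x z ≤ ∑ z ∈ A, P t y z
  reversible : ∃ π : Ω → ℝ, (∀ x, 0 < π x) ∧ ∑ x, π x = 1 ∧
    ∀ t x y, π x * P t x y = π y * P t y x

/-- One spin: with probability `1 - s` it has been resampled, and is then `true` (plus) with
probability `u`; with probability `s` it is still at its starting value `a`. -/
noncomputable def site (u s : ℝ) (a b : Bool) : ℝ :=
  (1 - s) * (if b then u else 1 - u) + s * (if a = b then 1 else 0)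

/-- Two independent spins, the first resampled from Bernoulli(`u`), the second from
Bernoulli(`1 - u`); with `s = exp (-t)` these are the time-`t` kernels of the heat-bath Glauber
dynamics of two non-interacting spins in opposite external fields. -/
noncomputable def twoSpins (u s : ℝ) (x y : Bool × Bool) : ℝ :=
  site u s x.1 y.1 * site (1 - u) s x.2 y.2

/-- stationary law -/
noncomputable def stat (u : ℝ) (x : Bool × Bool) : ℝ :=
  (if x.1 then u else 1 - u) * (if x.2 then 1 - u else u)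

lemma site_nonneg {u s : ℝ} (hu0 : 0 ≤ u) (hu1 : u ≤ 1) (hs0 : 0 ≤ s) (hs1 : s ≤ 1)
    (a b : Bool) : 0 ≤ site u s a b := by
  unfold site
  have h1 : 0 ≤ 1 - s := by linarith
  have h2 : 0 ≤ 1 - u := by linarith
  split_ifs <;> positivity

lemma upper_cases (A : Finset (Bool × Bool)) (hA : IsUpperSet (A : Set (Bool × Bool))) :
    A = ∅ ∨ A = {(true, true)} ∨ A = {(true, true), (true, false)} ∨
    A = {(true, true), (false, true)} ∨ A = {(true, true), (true, false), (false, true)} ∨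
    A = univ := by
  have key : ∀ A : Finset (Bool × Bool), (∀ x y : Bool × Bool, x ≤ y → x ∈ A → y ∈ A) →
    A = ∅ ∨ A = {(true, true)} ∨ A = {(true, true), (true, false)} ∨
    A = {(true, true), (false, true)} ∨ A = {(true, true), (true, false), (false, true)} ∨
    A = univ := by decide
  exact key A fun x y hxy hx => hA hxy hx

lemma twoSpins_mono {u s : ℝ} (hu0 : 0 ≤ u) (hu1 : u ≤ 1) (hs0 : 0 ≤ s) (hs1 : s ≤ 1)
    (x y : Bool × Bool) (hxy : x ≤ y) (A : Finset (Bool × Bool))
    (hA : IsUpperSet (A : Set (Bool × Bool))) :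
    ∑ z ∈ A, twoSpins u s x z ≤ ∑ z ∈ A, twoSpins u s y z := by
  have h1 : 0 ≤ 1 - s := by linarith
  have h2 : 0 ≤ 1 - u := by linarith
  have e1 : 0 ≤ u * s := by positivity
  have e2 : 0 ≤ (1 - u) * s := by positivity
  have e3 : 0 ≤ (1 - s) * s * u := by positivity
  have e4 : 0 ≤ (1 - s) * s * (1 - u) := by positivity
  have e5 : 0 ≤ s * s := by positivity
  have e6 : 0 ≤ s * (1 - s) := by positivity
  obtain ⟨x1, x2⟩ := x
  obtain ⟨y1, y2⟩ := y
  have hle : x1 ≤ y1 ∧ x2 ≤ y2 := hxy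
  rcases upper_cases A hA with rfl | rfl | rfl | rfl | rfl | rfl
  · simp
  all_goals
    cases x1 <;> cases x2 <;> cases y1 <;> cases y2 <;>
      first
        | (exfalso; revert hle; decide)
        | (simp [twoSpins, site, Fintype.sum_prod_type]; nlinarith)
        | (simp [twoSpins, site, Fintype.sum_prod_type])

lemma twoSpins_chain {T : Type*} [AddMonoid T] {u : ℝ} (hu0 : 0 < u) (hu1 : u < 1)
    (s : T → ℝ) (hs0 : ∀ t, 0 ≤ s t) (hs1 : ∀ t, s t ≤ 1) (hz : s 0 = 1)
    (hadd : ∀ a b, s (a + b) = s a * s b) :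
    IsMonotoneReversibleChain fun t => twoSpins u (s t) where
  nonneg t x y := mul_nonneg (site_nonneg hu0.le hu1.le (hs0 t) (hs1 t) _ _)
    (site_nonneg (by linarith) (by linarith) (hs0 t) (hs1 t) _ _)
  sum_eq_one t x := by
    obtain ⟨x1, x2⟩ := x
    cases x1 <;> cases x2 <;> simp [twoSpins, site, Fintype.sum_prod_type] <;> ring
  zero x y := by
    obtain ⟨x1, x2⟩ := x
    obtain ⟨y1, y2⟩ := y
    cases x1 <;> cases x2 <;> cases y1 <;> cases y2 <;> simp [twoSpins, site, hz]
  add a b x z := by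
    obtain ⟨x1, x2⟩ := x
    obtain ⟨z1, z2⟩ := z
    cases x1 <;> cases x2 <;> cases z1 <;> cases z2 <;>
      simp [twoSpins, site, hadd, Fintype.sum_prod_type] <;> ring
  monotone t x y hxy A hA := twoSpins_mono hu0.le hu1.le (hs0 t) (hs1 t) x y hxy A hA
  reversible := by
    refine ⟨stat u, fun x => ?_, ?_, fun t x y => ?_⟩
    · have h2 : 0 < 1 - u := by linarith
      obtain ⟨x1, x2⟩ := x
      cases x1 <;> cases x2 <;> simp [stat] <;> positivity
    · simp [stat, Fintype.sum_prod_type]; ring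
    · obtain ⟨x1, x2⟩ := x
      obtain ⟨y1, y2⟩ := y
      cases x1 <;> cases x2 <;> cases y1 <;> cases y2 <;>
        simp [twoSpins, site, stat] <;> ring

/-- The value of `tv` from a set `B` on which `μ - ν` is nonnegative and off which it is
nonpositive. -/
lemma tv_eq {Ω : Type*} [Fintype Ω] [DecidableEq Ω] (μ ν : Ω → ℝ) (B : Finset Ω) (c : ℝ)
    (hB : ∑ z ∈ B, (μ z - ν z) = c) (hBc : ∑ z ∈ univ \ B, (μ z - ν z) = -c)
    (h1 : ∀ z ∈ B, 0 ≤ μ z - ν z) (h2 : ∀ z ∉ B, μ z - ν z ≤ 0) : tv μ ν = c := by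
  unfold tv
  apply le_antisymm
  · apply sup'_le
    intro A _
    rw [← sum_sub_distrib]
    rw [abs_le]
    constructor
    · rw [← hBc]
      have : ∑ z ∈ univ \ B, (μ z - ν z) ≤ ∑ z ∈ A \ B, (μ z - ν z) := by
        apply sum_le_sum_of_subset_of_nonpos'
        · exact sdiff_subset_sdiff (subset_univ _) le_rfl
        · intro z hz _
          exact h2 z (mem_sdiff.1 hz).2
      have h3 : ∑ z ∈ A, (μ z - ν z) = ∑ z ∈ A \ B, (μ z - ν z) + ∑ z ∈ A ∩ B, (μ z - ν z) := by
        rw [← sum_union (disjoint_sdiff_inter A B), sdiff_union_inter]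
      have h4 : 0 ≤ ∑ z ∈ A ∩ B, (μ z - ν z) :=
        sum_nonneg fun z hz => h1 z (mem_inter.1 hz).2
      linarith
    · rw [← hB]
      have : ∑ z ∈ A ∩ B, (μ z - ν z) ≤ ∑ z ∈ B, (μ z - ν z) := by
        apply sum_le_sum_of_subset_of_nonneg inter_subset_right
        intro z hz _
        exact h1 z hz
      have h3 : ∑ z ∈ A, (μ z - ν z) = ∑ z ∈ A \ B, (μ z - ν z) + ∑ z ∈ A ∩ B, (μ z - ν z) := by
        rw [← sum_union (disjoint_sdiff_inter A B), sdiff_union_inter]
      have h4 : ∑ z ∈ A \ B, (μ z - ν z) ≤ 0 :=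
        sum_nonpos fun z hz => h2 z (mem_sdiff.1 hz).2
      linarith
  · have := le_sup' (fun A : Finset Ω => |∑ z ∈ A, μ z - ∑ z ∈ A, ν z|) (mem_univ B)
    refine le_trans ?_ this
    rw [← sum_sub_distrib, hB]
    exact le_abs_self c

lemma tv_extreme {u s : ℝ} (hs0 : 0 ≤ s) :
    tv (twoSpins u s ⊤) (twoSpins u s ⊥) = s := by
  have h : ∀ z : Bool × Bool, twoSpins u s ⊤ z - twoSpins u s ⊥ z =
      if z = (true, true) then s else if z = (false, false) then -s else 0 := by
    rintro ⟨z1, z2⟩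
    have ht : (⊤ : Bool × Bool) = (true, true) := rfl
    have hb : (⊥ : Bool × Bool) = (false, false) := rfl
    rw [ht, hb]
    cases z1 <;> cases z2 <;> simp [twoSpins, site] <;> ring
  apply tv_eq _ _ {(true, true)}
  · simp [h]
  · have : (univ \ {(true, true)} : Finset (Bool × Bool)) =
      {(true, false), (false, true), (false, false)} := by decide
    rw [this]
    simp [h]
  · intro z hz
    rw [mem_singleton] at hz
    subst hz
    rw [h]; simpa using hs0
  · intro z hz
    rw [mem_singleton] at hz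
    rw [h, if_neg hz]
    split_ifs <;> linarith

lemma tv_middle {u s : ℝ} (hu : 1 / 2 ≤ u) (hu1 : u ≤ 1) (hs0 : 0 ≤ s) (hs1 : s ≤ 1) :
    tv (twoSpins u s (true, false)) (twoSpins u s (false, true)) =
      s * (1 + (2 * u - 1) * (1 - s)) := by
  have h1 : 0 ≤ s * ((2 * u - 1) * (1 - s)) :=
    mul_nonneg hs0 (mul_nonneg (by linarith) (by linarith))
  have h2 : s * ((2 * u - 1) * (1 - s)) ≤ s := by
    have : (2 * u - 1) * (1 - s) ≤ 1 := by nlinarith
    nlinarith
  have h : ∀ z : Bool × Bool, twoSpins u s (true, false) z - twoSpins u s (false, true) z =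
      if z = (true, false) then s + s * ((2 * u - 1) * (1 - s))
      else if z = (false, true) then -s + s * ((2 * u - 1) * (1 - s))
      else - (s * ((2 * u - 1) * (1 - s))) := by
    rintro ⟨z1, z2⟩
    cases z1 <;> cases z2 <;> simp [twoSpins, site] <;> ring
  apply tv_eq _ _ {(true, false)}
  · simp [h]; ring
  · have : (univ \ {(true, false)} : Finset (Bool × Bool)) =
      {(true, true), (false, true), (false, false)} := by decide
    rw [this]
    simp [h]; ring
  · intro z hz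
    rw [mem_singleton] at hz
    subst hz
    rw [h]; simp; linarith
  · intro z hz
    rw [mem_singleton] at hz
    rw [h, if_neg hz]
    split_ifs <;> linarith

/-- **Q2 has a negative answer.**  Part 1: for every `1/2 < u < 1` the continuous-time Glauber
dynamics of two independent spins with opposite fields is a monotone reversible chain on
`{±1}²`, and at every time `t` the distance between the starts `(+,-)` and `(-,+)` is
`exp (-t) * (1 + (2u - 1) (1 - exp (-t)))` while the distance between the extremal starts is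
only `exp (-t)`.  Part 2: the same in discrete time.  Parts 3 and 4: the negated form of Q2 in
continuous and in discrete time, with a violation at every positive time. -/
theorem result :
    (∀ u : ℝ, 1 / 2 < u → u < 1 →
      IsMonotoneReversibleChain (fun t : ℝ≥0 => twoSpins u (Real.exp (-(t : ℝ)))) ∧
      (∀ x y, Continuous fun t : ℝ≥0 => twoSpins u (Real.exp (-(t : ℝ))) x y) ∧
      ∀ t : ℝ≥0,
        tv (twoSpins u (Real.exp (-(t : ℝ))) ⊤) (twoSpins u (Real.exp (-(t : ℝ))) ⊥) =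
          Real.exp (-(t : ℝ)) ∧
        tv (twoSpins u (Real.exp (-(t : ℝ))) (true, false))
            (twoSpins u (Real.exp (-(t : ℝ))) (false, true)) =
          Real.exp (-(t : ℝ)) * (1 + (2 * u - 1) * (1 - Real.exp (-(t : ℝ))))) ∧
    (∀ u r : ℝ, 1 / 2 < u → u < 1 → 0 < r → r < 1 →
      IsMonotoneReversibleChain (fun t : ℕ => twoSpins u (r ^ t)) ∧
      ∀ t : ℕ,
        tv (twoSpins u (r ^ t) ⊤) (twoSpins u (r ^ t) ⊥) = r ^ t ∧
        tv (twoSpins u (r ^ t) (true, false)) (twoSpins u (r ^ t) (false, true)) =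
          r ^ t * (1 + (2 * u - 1) * (1 - r ^ t))) ∧
    (∃ P : ℝ≥0 → Bool × Bool → Bool × Bool → ℝ, IsMonotoneReversibleChain P ∧
      (∀ x y, Continuous fun t => P t x y) ∧
      ∀ t, 0 < t → ∃ x y, tv (P t ⊤) (P t ⊥) < tv (P t x) (P t y)) ∧
    (∃ P : ℕ → Bool × Bool → Bool × Bool → ℝ, IsMonotoneReversibleChain P ∧
      ∀ t, 0 < t → ∃ x y, tv (P t ⊤) (P t ⊥) < tv (P t x) (P t y)) := by
  have hc : ∀ u : ℝ, 1 / 2 < u → u < 1 →
      IsMonotoneReversibleChain (fun t : ℝ≥0 => twoSpins u (Real.exp (-(t : ℝ)))) ∧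
      (∀ x y, Continuous fun t : ℝ≥0 => twoSpins u (Real.exp (-(t : ℝ))) x y) ∧
      ∀ t : ℝ≥0,
        tv (twoSpins u (Real.exp (-(t : ℝ))) ⊤) (twoSpins u (Real.exp (-(t : ℝ))) ⊥) =
          Real.exp (-(t : ℝ)) ∧
        tv (twoSpins u (Real.exp (-(t : ℝ))) (true, false))
            (twoSpins u (Real.exp (-(t : ℝ))) (false, true)) =
          Real.exp (-(t : ℝ)) * (1 + (2 * u - 1) * (1 - Real.exp (-(t : ℝ)))) := by
    intro u hu hu1
    have h1 : ∀ t : ℝ≥0, Real.exp (-(t : ℝ)) ≤ 1 := fun t =>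
      Real.exp_le_one_iff.2 (neg_nonpos.2 t.2)
    refine ⟨twoSpins_chain (by linarith) hu1 (fun t : ℝ≥0 => Real.exp (-(t : ℝ)))
      (fun t => (Real.exp_pos _).le) h1 (by simp) (fun a b => ?_), ?_, fun t => ⟨?_, ?_⟩⟩
    · show Real.exp (-((a + b : ℝ≥0) : ℝ)) = _
      rw [NNReal.coe_add, neg_add, Real.exp_add]
    · rintro ⟨x1, x2⟩ ⟨y1, y2⟩
      unfold twoSpins site
      fun_prop
    · exact tv_extreme (Real.exp_pos _).le
    · exact tv_middle hu.le hu1.le (Real.exp_pos _).le (h1 t)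
  have hd : ∀ u r : ℝ, 1 / 2 < u → u < 1 → 0 < r → r < 1 →
      IsMonotoneReversibleChain (fun t : ℕ => twoSpins u (r ^ t)) ∧
      ∀ t : ℕ,
        tv (twoSpins u (r ^ t) ⊤) (twoSpins u (r ^ t) ⊥) = r ^ t ∧
        tv (twoSpins u (r ^ t) (true, false)) (twoSpins u (r ^ t) (false, true)) =
          r ^ t * (1 + (2 * u - 1) * (1 - r ^ t)) := by
    intro u r hu hu1 hr0 hr1
    have h1 : ∀ t : ℕ, r ^ t ≤ 1 := fun t => pow_le_one₀ hr0.le hr1.le
    exact ⟨twoSpins_chain (by linarith) hu1 (fun t : ℕ => r ^ t)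
      (fun t => (pow_pos hr0 t).le) h1 (pow_zero r) (fun a b => pow_add r a b),
      fun t => ⟨tv_extreme (pow_pos hr0 t).le,
        tv_middle hu.le hu1.le (pow_pos hr0 t).le (h1 t)⟩⟩
  refine ⟨hc, hd, ?_, ?_⟩
  · obtain ⟨h1, h2, h3⟩ := hc (3 / 4) (by norm_num) (by norm_num)
    refine ⟨_, h1, h2, fun t ht => ⟨(true, false), (false, true), ?_⟩⟩
    show tv (twoSpins (3 / 4) (Real.exp (-(t : ℝ))) ⊤) (twoSpins (3 / 4) (Real.exp (-(t : ℝ))) ⊥) <
      tv (twoSpins (3 / 4) (Real.exp (-(t : ℝ))) (true, false))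
        (twoSpins (3 / 4) (Real.exp (-(t : ℝ))) (false, true))
    rw [(h3 t).1, (h3 t).2]
    have he : Real.exp (-(t : ℝ)) < 1 := Real.exp_lt_one_iff.2 (neg_neg_of_pos (by exact_mod_cast ht))
    have hp := Real.exp_pos (-(t : ℝ))
    nlinarith [mul_pos hp (sub_pos.2 he)]
  · obtain ⟨h1, h3⟩ := hd (3 / 4) (1 / 2) (by norm_num) (by norm_num) (by norm_num) (by norm_num)
    refine ⟨_, h1, fun t ht => ⟨(true, false), (false, true), ?_⟩⟩
    show tv (twoSpins (3 / 4) ((1 / 2) ^ t) ⊤) (twoSpins (3 / 4) ((1 / 2) ^ t) ⊥) <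
      tv (twoSpins (3 / 4) ((1 / 2) ^ t) (true, false))
        (twoSpins (3 / 4) ((1 / 2) ^ t) (false, true))
    rw [(h3 t).1, (h3 t).2]
    have he : ((1 : ℝ) / 2) ^ t < 1 := pow_lt_one₀ (by norm_num) (by norm_num) ht.ne'
    have hp : (0 : ℝ) < (1 / 2) ^ t := by positivity
    nlinarith [mul_pos hp (sub_pos.2 he)]

end Pool.Agent.H828_Old.TwoSpins
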